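import Pool.Agent.TH294.RG.SpecH
import Pool.Agent.TH294.RG.Mt2

/-!
# Third moments of Hecke-Maass forms at all scales above the wavelength (MP_a54f13_nt)

The plane is `ℂ`, with the upper half plane `HH` and `dμ = dx dy / y²`. `dx f z`, `dy f z` are the
partial derivatives `fderiv ℝ f z 1`, `fderiv ℝ f z I`; `TF U φ` says that `φ : ℂ → ℝ` is smooth
with compact support contained in `U`.

Proof idea: the correlation of `f³` with a function which is bounded in `L⁴` and varies slowly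
compared with `f` is `o(1 + ∫_K f⁴)` by the structure theorem for the fourth order moments; the
extremal function for the `L^{4/3}` norm of an average of `f³` is such a function.
-/

set_option autoImplicit false
open MeasureTheory Filter Topology Complex
open scoped ContDiff

namespace Pool.Agent.Results.MP_a54f13_nt.LocalThirdMoments

open Pool.Agent.W745.RW

/-- the open upper half plane -/
def HH : Set ℂ := {z | 0 < z.im}

/-- the eigenvalue `1/4 + t²` -/
noncomputable def ev (t : ℝ) : ℝ := 1 / 4 + t ^ 2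

/-- `f` is a smooth real solution of `-y² (∂x² + ∂y²) f = (1/4 + t²) f` on the upper half plane -/
def Eig (t : ℝ) (f : ℂ → ℝ) : Prop :=
  ContDiffOn ℝ ∞ f HH ∧ ∀ z ∈ HH, -(z.im ^ 2 * (dx (dx f) z + dy (dy f) z)) = ev t * f z

/-- the operator `f ↦ lam^{-1/2} y (∂x f - i ∂y f)` -/
noncomputable def RO (lam : ℝ) (f : ℂ → ℂ) (z : ℂ) : ℂ :=
  ((z.im / √lam : ℝ) : ℂ) * (dx f z - I * dy f z)

/-- quantum unique ergodicity in microlocal form: `∫ φ f (RO^k f) dμ → ∫ φ dμ` for `k = 0`, and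
`→ 0` for `k ≥ 1` -/
def QUE (t : ℕ → ℝ) (f : ℕ → ℂ → ℝ) : Prop :=
  ∀ φ, TF HH φ → ∀ k : ℕ, Tendsto (fun n => ∫ z, ((φ z / z.im ^ 2 : ℝ) : ℂ) *
    ((f n z : ℂ) * (RO (ev (t n)))^[k] (fun w => (f n w : ℂ)) z)) atTop
    (𝓝 (if k = 0 then ((∫ z, φ z / z.im ^ 2 : ℝ) : ℂ) else 0))

/-- the local third moment `∫ κ(y) f(z + r y)³ dy` at the point `z` and the scale `r` -/
noncomputable def loc3 (κ : ℂ → ℝ) (r : ℝ) (f : ℂ → ℝ) (z : ℂ) : ℝ :=
  ∫ y, κ y * f (z + r • y) ^ 3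

/-- the normalising factor `1 + ∫_K f⁴ dμ` -/
noncomputable def nrm (K : Set ℂ) (f : ℂ → ℝ) : ℝ := 1 + ∫ z in K, f z ^ 4 / z.im ^ 2

lemma ev_pos (t : ℝ) : 0 < ev t := by unfold ev; positivity

lemma HHo : IsOpen HH := isOpen_lt continuous_const continuous_im

lemma him : ContDiff ℝ ∞ (fun z : ℂ => z.im) := imCLM.contDiff

lemma inv_sqrt_sq {x : ℝ} (hx : 0 < x) : (1 / √x) ^ 2 = 1 / x := by
  rw [div_pow, Real.sq_sqrt hx.le, one_pow]

lemma ev_lim {t : ℕ → ℝ} (ht : Tendsto t atTop atTop) :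
    Tendsto (fun n => 1 / √(ev (t n))) atTop (𝓝 0) := by
  have h1 : Tendsto (fun n => ev (t n)) atTop atTop :=
    tendsto_atTop_add_const_left _ _ ((tendsto_pow_atTop two_ne_zero).comp ht)
  have h2 : Tendsto (fun n => √(ev (t n))) atTop atTop := Real.tendsto_sqrt_atTop.comp h1
  exact (h2.inv_tendsto_atTop).congr (fun n => by simp [one_div])

lemma raw {t : ℕ → ℝ} (ht : Tendsto t atTop atTop) {f : ℕ → ℂ → ℝ}
    (hf : ∀ n, Eig (t n) (f n)) (hqe : QUE t f) :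
    Pool.Agent.TH294.RG.RawG HH (fun z => z.im) (fun n => 1 / √(ev (t n))) f
      (Pool.Agent.TH294.RG.MM (fun _ => 1) Pool.Agent.TH294.RG.ea
        Pool.Agent.TH294.RG.unif) := by
  have hRD : ∀ n, RO (ev (t n)) =
      Pool.Agent.TH294.RS.DP (fun z => z.im) (1 / √(ev (t n))) := by
    intro n
    funext g z
    simp only [RO, Pool.Agent.TH294.RS.DP, Pool.Agent.TH294.RS.dd]
    push_cast
    ring
  refine ⟨fun n => ?_, ev_lim ht, him.contDiffOn, fun z hz => hz, fun n => (hf n).1,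
    fun n z hz => ?_, fun φ hφ k => ?_⟩
  · have := ev_pos (t n)
    positivity
  · have h1 := (hf n).2 z hz
    have h2 := inv_sqrt_sq (ev_pos (t n))
    show (1 / √(ev (t n))) ^ 2 * (z.im ^ 2 * (dx (dx (f n)) z + dy (dy (f n)) z)) +
      f n z = 0
    rw [h2]
    have h3 : z.im ^ 2 * (dx (dx (f n)) z + dy (dy (f n)) z) = - (ev (t n) * f n z) := by
      linarith
    have h4 := (ev_pos (t n)).ne'
    rw [h3]
    field_simp
    ring
  · have hφ' := Pool.Agent.TH294.RS.TF.mulc HHo hφ (him.pow 2).contDiffOn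
    have h1 := hqe _ hφ' k
    have e : ∀ z : ℂ, φ z * z.im ^ 2 / z.im ^ 2 = φ z := by
      intro z
      by_cases hz : z ∈ HH
      · have : z.im ≠ 0 := ne_of_gt hz
        field_simp
      · rw [Pool.Agent.TH294.RS.TF.zero hφ hz]; simp
    simp only [e] at h1
    have e2 : ∫ z, (φ z : ℂ) * Pool.Agent.TH294.RG.MM (fun _ => 1) Pool.Agent.TH294.RG.ea
        Pool.Agent.TH294.RG.unif k z = if k = 0 then ((∫ z, φ z : ℝ) : ℂ) else 0 := by
      simp only [Pool.Agent.TH294.RG.MM_unif]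
      split_ifs with hk
      · simp only [mul_one]
        exact integral_complex_ofReal
      · simp
    rw [e2]
    refine h1.congr fun n => ?_
    rw [hRD n]

lemma cmp_bd {K : Set ℂ} (hK : IsCompact K) (hKH : K ⊆ HH) : ∃ C : ℝ, 0 < C ∧
    ∀ F : ℂ → ℝ, ContinuousOn F K → (∀ z, 0 ≤ F z) →
      ∫ z in K, F z ≤ C * ∫ z in K, F z / z.im ^ 2 := by
  obtain ⟨C, hC⟩ := hK.exists_bound_of_continuousOn
    ((him.continuous.pow 2).continuousOn (s := K))
  refine ⟨|C| + 1, by positivity, fun F hF hF0 => ?_⟩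
  have i1 : IntegrableOn F K := hF.integrableOn_compact hK
  have i2 : IntegrableOn (fun z => (|C| + 1) * (F z / z.im ^ 2)) K := by
    refine ContinuousOn.integrableOn_compact hK ?_
    refine continuousOn_const.mul (hF.div (him.continuous.pow 2).continuousOn fun z hz => ?_)
    have : 0 < z.im := hKH hz
    positivity
  rw [← integral_const_mul]
  refine setIntegral_mono_on i1 i2 hK.measurableSet fun z hz => ?_
  have h3 : 0 < z.im := hKH hz
  have h4 : z.im ^ 2 ≤ |C| + 1 := by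
    have h7 : ‖z.im ^ 2‖ ≤ C := hC z hz
    rw [Real.norm_eq_abs, abs_of_nonneg (pow_nonneg h3.le 2)] at h7
    linarith [le_abs_self C]
  rw [mul_div_assoc', le_div_iff₀ (pow_pos h3 2), mul_comm]
  exact mul_le_mul_of_nonneg_right h4 (hF0 z)

lemma nrm_pos (K : Set ℂ) (f : ℂ → ℝ) : 1 ≤ nrm K f := by
  have : 0 ≤ ∫ z in K, f z ^ 4 / z.im ^ 2 := integral_nonneg fun z => by positivity
  unfold nrm; linarith

lemma nrm_cmp {K : Set ℂ} (hK : IsCompact K) (hKH : K ⊆ HH) : ∃ C : ℝ, 0 < C ∧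
    ∀ f : ℂ → ℝ, ContDiffOn ℝ ∞ f HH → 1 + ∫ z in K, f z ^ 4 ≤ C * nrm K f := by
  obtain ⟨C, hC0, hC⟩ := cmp_bd hK hKH
  refine ⟨1 + C, by linarith, fun f hf => ?_⟩
  have h1 := hC (fun z => f z ^ 4) ((hf.continuousOn.mono hKH).pow 4) (fun z => by positivity)
  have h2 : 0 ≤ ∫ z in K, f z ^ 4 / z.im ^ 2 := integral_nonneg fun z => by positivity
  unfold nrm
  nlinarith

lemma tf_div {K : Set ℂ} (hKH : K ⊆ HH) {ψ : ℂ → ℝ} (hψ : TF (interior K) ψ) :
    TF (interior K) (fun z => ψ z * (z.im ^ 2)⁻¹) := by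
  have hi : ContDiffOn ℝ ∞ (fun z : ℂ => (z.im ^ 2)⁻¹) HH :=
    (him.pow 2).contDiffOn.inv fun z hz => by
      have : 0 < z.im := hz
      positivity
  exact Pool.Agent.TH294.RS.TF.mulc isOpen_interior hψ (hi.mono (interior_subset.trans hKH))

lemma mem1 (K : Set ℂ) (hK : IsCompact K) : MemLp (fun _ : ℂ => (1 : ℝ)) 2
    (volume.restrict K) := by
  have : IsFiniteMeasure (volume.restrict K) := ⟨by
    rw [Measure.restrict_apply MeasurableSet.univ, Set.univ_inter]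
    exact hK.measure_lt_top⟩
  exact memLp_const 1

lemma par_unif : Pool.Agent.TH294.RG.par Pool.Agent.TH294.RG.ea Pool.Agent.TH294.RG.mu0 = 0 := by
  unfold Pool.Agent.TH294.RG.par
  rw [measureReal_def, Measure.measure_prod_null (Pool.Agent.TH294.RG.PS_meas
    Pool.Agent.TH294.RG.ea_meas) |>.2]
  · rfl
  · refine ae_of_all _ fun x => ?_
    rw [Pool.Agent.TH294.RG.ea_par]
    have hc : (Prod.mk x ⁻¹' {p : ℝ × ℝ | Real.sin (p.1 - p.2) = 0}).Countable := by
      refine (Set.countable_range (fun k : ℤ => x - k * Real.pi)).mono ?_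
      intro y hy
      have h1 : Real.sin (x - y) = 0 := hy
      obtain ⟨k, hk⟩ := Real.sin_eq_zero_iff.1 h1
      exact ⟨k, by simp only; linarith⟩
    show Pool.Agent.TH294.RG.mu0 _ = 0
    unfold Pool.Agent.TH294.RG.mu0
    rw [Measure.smul_apply, hc.measure_zero, smul_zero]

/-- **Result.** Let `f n` be smooth real solutions of `-y²(∂x² + ∂y²) f = (1/4 + t_n²) f` on the
upper half plane, `t_n → ∞`, satisfying microlocal quantum unique ergodicity, let `K` be compact,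
`ψ ≥ 0` a test function supported in its interior and `κ` a real test function on the plane. There
is `r₀ > 0` such that for each `ε > 0` there is `R₀` such that for all large `n` and all scales `r`
between `R₀ (1/4 + t_n²)^{-1/2}` and `r₀` the `L^{4/3}` norm of the local third moments satisfies
`∫ ψ |loc3 κ r f|^{4/3} dμ ≤ ε (1 + ∫_K f⁴ dμ)`. -/
theorem result (t : ℕ → ℝ) (ht : Tendsto t atTop atTop) (f : ℕ → ℂ → ℝ)
    (hf : ∀ n, Eig (t n) (f n)) (hqe : QUE t f) (K : Set ℂ) (hK : IsCompact K) (hKH : K ⊆ HH)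
    (ψ : ℂ → ℝ) (hψ : TF (interior K) ψ) (hψ0 : ∀ z, 0 ≤ ψ z) (κ : ℂ → ℝ)
    (hκ : TF Set.univ κ) :
    ∃ r₀ : ℝ, 0 < r₀ ∧ ∀ ε : ℝ, 0 < ε → ∃ R₀ : ℝ, 0 < R₀ ∧ ∀ᶠ n in atTop, ∀ r : ℝ,
      R₀ / √(ev (t n)) ≤ r → r ≤ r₀ →
      ∫ z, ψ z * |loc3 κ r (f n) z| ^ (4 / 3 : ℝ) / z.im ^ 2 ≤ ε * nrm K (f n) := by
  have hKi : interior K ⊆ HH := interior_subset.trans hKH
  have hψ' := tf_div hKH hψ
  have hψ0' : ∀ z, 0 ≤ ψ z * (z.im ^ 2)⁻¹ := fun z =>
    mul_nonneg (hψ0 z) (inv_nonneg.2 (sq_nonneg _))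
  obtain ⟨C, hC0, hC⟩ := nrm_cmp hK hKH
  obtain ⟨r₀, hr, key⟩ := Pool.Agent.TH294.RG.meso_cube_unif (fun K' hK' _ => mem1 K' hK')
    (ae_of_all _ fun z => by
      show Pool.Agent.TH294.RG.par Pool.Agent.TH294.RG.ea (Pool.Agent.TH294.RG.unif z) = 0
      exact par_unif) (raw ht hf hqe) hK hKH hκ.1 hκ.2.1 hψ' hψ0'
  refine ⟨r₀, hr, fun ε hε => ?_⟩
  obtain ⟨R₀, hR, h1⟩ := key (ε / C) (div_pos hε hC0)
  refine ⟨R₀, hR, h1.mono fun n hn r hr1 hr2 => ?_⟩
  have h2 := hn r (by rw [mul_one_div]; exact hr1) hr2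
  have e1 : ∫ z, ψ z * |loc3 κ r (f n) z| ^ (4 / 3 : ℝ) / z.im ^ 2 =
      ∫ z, ψ z * (z.im ^ 2)⁻¹ * |∫ y, κ y * f n (z + r • y) ^ 3| ^ (4 / 3 : ℝ) := by
    congr 1; funext z
    unfold loc3
    rw [div_eq_mul_inv]
    ring
  rw [e1]
  refine h2.trans ?_
  have h3 := mul_le_mul_of_nonneg_left (hC (f n) (hf n).1) (div_pos hε hC0).le
  refine h3.trans (le_of_eq ?_)
  have := hC0.ne'
  field_simp

end Pool.Agent.Results.MP_a54f13_nt.LocalThirdMoments
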