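import Pool.Agent.TH294.RG.SpecH

/-!
# The power spectrum of the square of a Hecke-Maass form (MP_a54f13_nt)

The plane is `ℂ`, with the upper half plane `HH`. `dx f z`, `dy f z` are the partial derivatives
`fderiv ℝ f z 1`, `fderiv ℝ f z I`; `TF U φ` says that `φ : ℂ → ℝ` is smooth with compact
support contained in `U`. `RO lam f = lam^{-1/2} y (∂x f - i ∂y f)` is the normalised frame
derivative, `L lam g = - lam⁻¹ y² (∂x² + ∂y²) g` the normalised hyperbolic Laplacian, and
`opF F lam g = F(L lam) g = ∑ F_i (L lam)^i g` for a real polynomial `F = ∑ F_i x^i`.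

The hypothesis `hqe` is quantum unique ergodicity in its microlocal form:
`∫ φ f (RO^k f) dμ → ∫ φ dμ` for `k = 0`, and `→ 0` for `k ≥ 1`; here `dμ = dx dy / y²`.
-/

set_option autoImplicit false
open MeasureTheory Filter Topology Complex
open scoped ContDiff

namespace Pool.Agent.Results.MP_a54f13_nt.PowerSpectrum

open Pool.Agent.W745.RW

/-- the open upper half plane -/
def HH : Set ℂ := {z | 0 < z.im}

/-- the operator `f ↦ lam^{-1/2} y (∂x f - i ∂y f)` -/
noncomputable def RO (lam : ℝ) (f : ℂ → ℂ) (z : ℂ) : ℂ :=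
  ((z.im / √lam : ℝ) : ℂ) * (dx f z - I * dy f z)

/-- the hyperbolic Laplacian `-y² (∂x² + ∂y²)` divided by `lam` -/
noncomputable def L (lam : ℝ) (g : ℂ → ℝ) (z : ℂ) : ℝ :=
  -(z.im ^ 2 * (dx (dx g) z + dy (dy g) z)) / lam

/-- the polynomial `F` in the operator `L lam`, applied to `g` -/
noncomputable def opF (F : Polynomial ℝ) (lam : ℝ) (g : ℂ → ℝ) (z : ℂ) : ℝ :=
  F.sum fun i c => c * (L lam)^[i] g z

/-- the value of `∫ (F(L) f²)² dμ / area` for the Gaussian random wave: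
`F(0)² + π⁻¹ ∫_0^{2π} F(2 - 2 cos θ)² dθ` -/
noncomputable def gauss (F : Polynomial ℝ) : ℝ :=
  F.eval 0 ^ 2 + 1 / Real.pi * ∫ θ in (0 : ℝ)..(2 * Real.pi), F.eval (2 - 2 * Real.cos θ) ^ 2

/-- **Result.** Let `f n` be real solutions of `-y²(∂x² + ∂y²) f = (1/4 + t_n²) f` on the upper
half plane, `t_n → ∞`, satisfying microlocal quantum unique ergodicity, let `K` be compact and `ψ`
a test function supported in its interior. Then for every real polynomial `F`,
`∫ ψ (F(L) f²)² dμ` equals the Gaussian value `gauss F ∫ ψ dμ` plus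
`(2 F(0)² + F(4)²) / 3` times the defect `∫ ψ f⁴ dμ - 3 ∫ ψ dμ` of the fourth moment, up to an
error `o(1 + ∫_K f⁴ dμ)`. In particular, if `F(0) = F(4) = 0` there is no defect. -/
theorem result (t : ℕ → ℝ) (ht : Tendsto t atTop atTop) (f : ℕ → ℂ → ℝ)
    (hf : ∀ n, ContDiffOn ℝ ∞ (f n) HH)
    (heq : ∀ n, ∀ z ∈ HH,
      -(z.im ^ 2 * (dx (dx (f n)) z + dy (dy (f n)) z)) = (1 / 4 + t n ^ 2) * f n z)
    (hqe : ∀ φ, TF HH φ → ∀ k : ℕ, Tendsto (fun n => ∫ z, ((φ z / z.im ^ 2 : ℝ) : ℂ) *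
      ((f n z : ℂ) * (RO (1 / 4 + t n ^ 2))^[k] (fun w => (f n w : ℂ)) z)) atTop
      (𝓝 (if k = 0 then ((∫ z, φ z / z.im ^ 2 : ℝ) : ℂ) else 0)))
    (K : Set ℂ) (hK : IsCompact K) (hKH : K ⊆ HH) (ψ : ℂ → ℝ) (hψ : TF (interior K) ψ)
    (F : Polynomial ℝ) :
    Tendsto (fun n =>
      ((∫ z, ψ z * opF F (1 / 4 + t n ^ 2) (fun w => f n w ^ 2) z ^ 2 / z.im ^ 2)
        - gauss F * (∫ z, ψ z / z.im ^ 2)
        - (2 * F.eval 0 ^ 2 + F.eval 4 ^ 2) / 3 *
          ((∫ z, ψ z * f n z ^ 4 / z.im ^ 2) - 3 * ∫ z, ψ z / z.im ^ 2)) /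
      (1 + ∫ z in K, f n z ^ 4 / z.im ^ 2)) atTop (𝓝 0) := by
  have hHo : IsOpen HH := isOpen_lt continuous_const continuous_im
  have him : ContDiff ℝ ∞ (fun z : ℂ => z.im) := imCLM.contDiff
  have hRD : ∀ n, RO (1 / 4 + t n ^ 2) =
      Pool.Agent.TH294.RS.DP (fun z => z.im) (1 / √(1 / 4 + t n ^ 2)) := by
    intro n
    funext g z
    simp only [RO, Pool.Agent.TH294.RS.DP, Pool.Agent.TH294.RS.dd]
    push_cast
    ring
  have hraw : Pool.Agent.TH294.RG.RawG HH (fun z => z.im) (fun n => 1 / √(1 / 4 + t n ^ 2)) f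
      (Pool.Agent.TH294.RG.MM (fun _ => 1) Pool.Agent.TH294.RG.ea
        Pool.Agent.TH294.RG.unif) := by
    refine ⟨fun n => by positivity, ?_, him.contDiffOn, fun z hz => hz, hf, fun n z hz => ?_,
      fun φ hφ k => ?_⟩
    · have h1 : Tendsto (fun n => 1 / 4 + t n ^ 2) atTop atTop :=
        tendsto_atTop_add_const_left _ _ ((tendsto_pow_atTop two_ne_zero).comp ht)
      have h2 : Tendsto (fun n => √(1 / 4 + t n ^ 2)) atTop atTop :=
        Real.tendsto_sqrt_atTop.comp h1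
      exact (h2.inv_tendsto_atTop).congr (fun n => by simp [one_div])
    · have h1 := heq n z hz
      have h2 : (1 / √(1 / 4 + t n ^ 2)) ^ 2 = 1 / (1 / 4 + t n ^ 2) := by
        rw [div_pow, Real.sq_sqrt (by positivity), one_pow]
      show (1 / √(1 / 4 + t n ^ 2)) ^ 2 * (z.im ^ 2 * (dx (dx (f n)) z + dy (dy (f n)) z)) +
        f n z = 0
      rw [h2]
      have h3 : z.im ^ 2 * (dx (dx (f n)) z + dy (dy (f n)) z) =
          - ((1 / 4 + t n ^ 2) * f n z) := by linarith
      have h4 : (1 / 4 + t n ^ 2) ≠ 0 := by positivity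
      rw [h3]
      field_simp
      ring
    · have hφ' := Pool.Agent.TH294.RS.TF.mulc hHo hφ (him.pow 2).contDiffOn
      have h1 := hqe _ hφ' k
      have e : ∀ z : ℂ, φ z * z.im ^ 2 / z.im ^ 2 = φ z := by
        intro z
        by_cases hz : z ∈ HH
        · have : z.im ≠ 0 := ne_of_gt hz
          field_simp
        · rw [Pool.Agent.TH294.RS.TF.zero hφ hz]; simp
      simp only [e] at h1
      have e2 : ∫ z, (φ z : ℂ) * Pool.Agent.TH294.RG.MM (fun _ => 1) Pool.Agent.TH294.RG.ea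
          Pool.Agent.TH294.RG.unif k z = if k = 0 then ((∫ z, φ z : ℝ) : ℂ) else 0 := by
        simp only [Pool.Agent.TH294.RG.MM_unif]
        split_ifs with hk
        · simp only [mul_one]
          exact integral_complex_ofReal
        · simp
      rw [e2]
      refine h1.congr fun n => ?_
      rw [hRD n]
  have hi : ContDiffOn ℝ ∞ (fun z : ℂ => (z.im ^ 2)⁻¹) HH :=
    (him.pow 2).contDiffOn.inv fun z hz => by
      have : 0 < z.im := hz
      positivity
  have hBH : interior K ⊆ HH := interior_subset.trans hKH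
  have hφ := Pool.Agent.TH294.RS.TF.mulc isOpen_interior hψ (hi.mono hBH)
  have key := Pool.Agent.TH294.RG.spec_real (T := fun n => L (1 / 4 + t n ^ 2))
    Pool.Agent.TH294.RG.ea_meas Pool.Agent.TH294.RG.ea_norm
    (fun K' hK' _ => by
      have : IsFiniteMeasure (volume.restrict K') := ⟨by
        rw [Measure.restrict_apply MeasurableSet.univ, Set.univ_inter]
        exact hK'.measure_lt_top⟩
      exact memLp_const 1) hraw hK hKH hφ F (fun n g z _ => by
      have h2 : (1 / √(1 / 4 + t n ^ 2)) ^ 2 = 1 / (1 / 4 + t n ^ 2) := by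
        rw [div_pow, Real.sq_sqrt (by positivity), one_pow]
      simp only [L, Pool.Agent.TH294.RG.sR, h2, lap]
      ring)
  have i0 : ∀ z : ℂ, ψ z * (z.im ^ 2)⁻¹ = ψ z / z.im ^ 2 := fun z => by rw [div_eq_mul_inv]
  obtain ⟨C, hC⟩ := hK.exists_bound_of_continuousOn
    ((him.continuous.pow 2).continuousOn (s := K))
  have cf : ∀ n, ContinuousOn (fun z => f n z ^ 4) K := fun n =>
    ((hf n).continuousOn.mono hKH).pow 4
  have p1 : ∀ n, 0 ≤ ∫ z in K, f n z ^ 4 := fun n => integral_nonneg fun z => by positivity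
  have p2 : ∀ n, 0 ≤ ∫ z in K, f n z ^ 4 / z.im ^ 2 := fun n =>
    integral_nonneg fun z => by positivity
  refine Pool.Agent.TH294.RG.nrm_change (C := 1 + |C|) (A := fun n => 1 + ∫ z in K, f n z ^ 4)
    (fun n => by linarith [p1 n]) (fun n => by linarith [p2 n]) (fun n => ?_) ?_
  · have h1 : ∫ z in K, f n z ^ 4 ≤ ∫ z in K, |C| * (f n z ^ 4 / z.im ^ 2) := by
      have i1 : IntegrableOn (fun z => f n z ^ 4) K := (cf n).integrableOn_compact hK
      have i2 : IntegrableOn (fun z => |C| * (f n z ^ 4 / z.im ^ 2)) K := by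
        refine ContinuousOn.integrableOn_compact hK ?_
        refine continuousOn_const.mul ((cf n).div (him.continuous.pow 2).continuousOn
          fun z hz => ?_)
        have : 0 < z.im := hKH hz
        positivity
      refine setIntegral_mono_on i1 i2 hK.measurableSet fun z hz => ?_
      have h3 : 0 < z.im := hKH hz
      have h4 : z.im ^ 2 ≤ |C| := by
        have h7 : ‖z.im ^ 2‖ ≤ C := hC z hz
        rw [Real.norm_eq_abs, abs_of_nonneg (pow_nonneg h3.le 2)] at h7
        exact h7.trans (le_abs_self C)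
      rw [mul_div_assoc', le_div_iff₀ (pow_pos h3 2), mul_comm]
      exact mul_le_mul_of_nonneg_right h4 (Even.pow_nonneg (by decide) _)
    rw [integral_const_mul] at h1
    have h5 : 0 ≤ |C| := abs_nonneg C
    have h6 := p2 n
    nlinarith
  · refine key.congr fun n => ?_
    congr 1
    have e1 : ∫ z, ψ z * (z.im ^ 2)⁻¹ * (F.sum fun i c => c *
        (L (1 / 4 + t n ^ 2))^[i] (fun w => f n w ^ 2) z) ^ 2 =
        ∫ z, ψ z * opF F (1 / 4 + t n ^ 2) (fun w => f n w ^ 2) z ^ 2 / z.im ^ 2 := by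
      congr 1; funext z
      simp only [opF]
      ring
    have e2 : ∫ z, ψ z * (z.im ^ 2)⁻¹ * f n z ^ 4 = ∫ z, ψ z * f n z ^ 4 / z.im ^ 2 := by
      congr 1; funext z; ring
    have e3 : ∫ z, ψ z * (z.im ^ 2)⁻¹ * (3 * (1 : ℝ) ^ 2) = 3 * ∫ z, ψ z / z.im ^ 2 := by
      rw [← integral_const_mul]
      congr 1; funext z; ring
    have e4 : ∫ z, ψ z * (z.im ^ 2)⁻¹ * ((1 : ℝ) ^ 2 * (F.eval 0 ^ 2 +
        Pool.Agent.TH294.RG.ang F Pool.Agent.TH294.RG.ea (Pool.Agent.TH294.RG.unif z))) =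
        gauss F * ∫ z, ψ z / z.im ^ 2 := by
      rw [← integral_const_mul]
      congr 1; funext z
      simp only [Pool.Agent.TH294.RG.unif, ProbabilityTheory.Kernel.const_apply,
        Pool.Agent.TH294.RG.ang_unif, gauss]
      ring
    rw [e1, e2, e3, e4]
    ring

end Pool.Agent.Results.MP_a54f13_nt.PowerSpectrum
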